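import Pool.Agent.W2helper8.AF.Stm

/-!
# Project AF (MP_a320f3_co), piece RSTEP (helper82)
-/

set_option autoImplicit false

namespace Pool.Agent.W2helper82.AF

open Finset
open scoped Classical
open Pool.Agent.W2helper8.AF

universe u

/-- the sum of `S_erase` over all vertices -/
theorem sum_S_erase {V : Type u} (G : SimpleGraph V) (W : Finset V) :
    ∑ x ∈ W, S G (W.erase x) + 2 * S G W = W.card * (S G W + 1) := by
  have h1 : ∑ x ∈ W, (S G (W.erase x) + 2 * (nb G W x).card) = ∑ _x ∈ W, (S G W + 1) :=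
    Finset.sum_congr rfl fun x hx => S_erase G hx
  rw [Finset.sum_const, smul_eq_mul, Finset.sum_add_distrib, ← Finset.mul_sum] at h1
  exact h1

/-- the main case `j = i + 1` -/
theorem rstep_main (hX : XStm.{u}) {V : Type u} (G : SimpleGraph V) (n m : ℕ) (hn : 1 ≤ n)
    (hR : R G n m) (hE : ∀ q, 2 ≤ q → m = n * q + 1 → E G n q) (W : Finset V) (hOk : Ok G n W)
    (hW : W.card = m + 1) (q i : ℕ) (hi : i + 1 ≤ n) (hm : m = n * q + i + 1) :
    1 + n * q ^ 2 + (i + 1) * (2 * q + 1) ≤ S G W := by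
  by_contra hlt
  push Not at hlt
  -- the bound for the sets with one vertex less
  have hB : ∀ x ∈ W, 1 + n * q ^ 2 + i * (2 * q + 1) ≤ S G (W.erase x) := by
    intro x hx
    exact hR (W.erase x) (hOk.mono (erase_subset _ _))
      (by rw [card_erase_of_mem hx, hW]; rfl) q i (by omega) (by omega)
  have hsum := sum_S_erase G W
  have hsumB : W.card * (1 + n * q ^ 2 + i * (2 * q + 1)) ≤ ∑ x ∈ W, S G (W.erase x) := by
    have := Finset.card_nsmul_le_sum W _ _ hB
    simpa using this
  obtain ⟨e, he⟩ := S_parity G W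
  have hw : W.card = n * q + i + 2 := by omega
  -- parity
  have hpar : S G W + 2 ≤ 1 + n * q ^ 2 + (i + 1) * (2 * q + 1) := by
    rcases Nat.even_or_odd (n * q ^ 2 + n * q) with hev | hodd
    · obtain ⟨k, hk⟩ := hev
      have h1 : (i + 1) * (2 * q + 1) = 2 * (i * q + q) + i + 1 := by ring
      rw [h1] at hlt ⊢
      omega
    · exfalso
      have : Even (n * q ^ 2 + n * q) := by
        have h2 : n * q ^ 2 + n * q = n * (q * (q + 1)) := by ring
        rw [h2]
        exact (Nat.even_mul_succ_self q).mul_left n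
      exact (Nat.not_even_iff_odd.2 hodd) this
  set s := S G W with hs
  have hmainineq : (n * q + i + 2) * (1 + n * q ^ 2 + i * (2 * q + 1)) + 2 * s ≤
      (n * q + i + 2) * (s + 1) := by
    rw [hw] at hsum hsumB
    omega
  -- `i = 0`
  have hi0 : i = 0 := by
    by_contra hne
    have hpos : 1 ≤ i := Nat.one_le_iff_ne_zero.2 hne
    zify at hmainineq hpar
    have h1 : ((n : ℤ) * q + i) * s ≤ (n * q + i) * (1 + n * q ^ 2 + (i + 1) * (2 * q + 1) - 2) := by
      apply mul_le_mul_of_nonneg_left (by linarith) (by positivity)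
    have h3 : (1 : ℤ) ≤ i := by exact_mod_cast hpos
    have h4 : (0 : ℤ) ≤ q := by positivity
    nlinarith [mul_nonneg (sub_nonneg.2 h3) h4]
  subst hi0
  simp only [Nat.zero_add, Nat.one_mul, Nat.zero_mul, Nat.add_zero] at *
  rcases Nat.eq_zero_or_pos q with hq0 | hqpos
  · subst hq0
    have := card_le_S G W
    simp at hpar hw
    omega
  have hs1 : n * q ^ 2 + 2 * q ≤ s := by
    have h1 : n * q * (n * q ^ 2 + 2 * q) ≤ n * q * s := by nlinarith
    exact Nat.le_of_mul_le_mul_left h1 (by positivity)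
  have hs2 : s = n * q ^ 2 + 2 * q := by omega
  -- all equal
  have hall : ∀ x ∈ W, S G (W.erase x) = 1 + n * q ^ 2 := by
    have htot : ∑ x ∈ W, S G (W.erase x) = ∑ _x ∈ W, (1 + n * q ^ 2) := by
      rw [Finset.sum_const, smul_eq_mul]
      have h1 : ∑ x ∈ W, S G (W.erase x) + 2 * (n * q ^ 2 + 2 * q) =
          (n * q + 2) * (n * q ^ 2 + 2 * q + 1) := by
        rw [← hs2, ← hw]; exact hsum
      rw [hw]
      nlinarith
    intro x hx
    exact ((Finset.sum_eq_sum_iff_of_le hB).1 htot.symm x hx).symm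
  have hreg : ∀ x ∈ W, (nb G W x).card = q := by
    intro x hx
    have h1 := S_erase G hx
    rw [hall x hx, ← hs, hs2] at h1
    omega
  rcases Nat.lt_or_ge q 2 with hq1 | hq2
  · have hq : q = 1 := by omega
    subst hq
    refine hOk.1 W (Finset.Subset.refl _) ?_
    rw [SimpleGraph.isNClique_iff]
    refine ⟨?_, by rw [hw]; ring⟩
    intro x hx y hy hxy
    by_contra hadj
    have h1 : ({x, y} : Finset V) ⊆ nb G W x := by
      intro z hz
      rcases mem_insert.1 hz with rfl | hz
      · exact self_mem_nb hx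
      · rw [mem_singleton.1 hz]
        exact mem_nb.2 ⟨hy, hadj⟩
    have h2 := card_le_card h1
    rw [card_pair hxy, hreg x hx] at h2
    omega
  · have hne : W.Nonempty := by
      rw [← card_pos, hw]
      omega
    obtain ⟨x0, hx0⟩ := hne
    obtain ⟨c, hc⟩ := hE q hq2 hm (W.erase x0) (hOk.mono (erase_subset _ _))
      (by rw [card_erase_of_mem hx0, hw]; rfl) (hall x0 hx0)
    exact hOk.2 (hX G n q W x0 c hn hq2 hw hreg hx0 hc)

theorem p_rstep (hX : XStm.{u}) : RStepStm.{u} := by
  intro V G n m hn hR hE W hOk hW q j hj hm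
  rcases Nat.eq_zero_or_pos j with hj0 | hjpos
  · subst hj0
    rcases Nat.eq_zero_or_pos q with hq0 | hqpos
    · subst hq0
      have := card_le_S G W
      simp
      omega
    · obtain ⟨q', rfl⟩ : ∃ q', q = q' + 1 := ⟨q - 1, by omega⟩
      obtain ⟨n', rfl⟩ : ∃ n', n = n' + 1 := ⟨n - 1, by omega⟩
      have h1 := rstep_main hX G (n' + 1) m hn hR hE W hOk hW q' n' le_rfl
        (by nlinarith)
      calc 1 + (n' + 1) * (q' + 1) ^ 2 + 0 * (2 * (q' + 1) + 1)
          = 1 + (n' + 1) * q' ^ 2 + (n' + 1) * (2 * q' + 1) := by ring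
        _ ≤ S G W := h1
  · obtain ⟨i, rfl⟩ : ∃ i, j = i + 1 := ⟨j - 1, by omega⟩
    exact rstep_main hX G n m hn hR hE W hOk hW q i hj (by omega)

end Pool.Agent.W2helper82.AF
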