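import Pool.Agent.W2helper8.AF.Stm

/-!
# Project AF (MP_a320f3_co), piece X (helper82)
-/

set_option autoImplicit false

namespace Pool.Agent.W2helper82.AF

open Finset
open scoped Classical
open Pool.Agent.W2helper8.AF

universe u

theorem p_x : XStm.{u} := by
  intro V G n q W x0 c hn hq hW hreg hx0 hStd
  obtain ⟨h4, hS⟩ := hStd
  set Y := W.erase x0 with hY
  set T := Y.filter (fun x => c x = 0) with hT
  have hYW : Y ⊆ W := erase_subset _ _
  have hTY : T ⊆ Y := filter_subset _ _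
  have hx0Y : x0 ∉ Y := notMem_erase _ _
  have hx0T : x0 ∉ T := fun h => hx0Y (hTY h)
  have hTc : T.card = q + 1 := by
    have := h4.2.2.2 0 (by omega)
    simpa [hT] using this
  -- vertices of colour `≠ 0` are adjacent to `x0`
  have h1 : ∀ y ∈ Y, c y ≠ 0 → G.Adj y x0 := by
    intro y hy hc
    have h2 : (nb G Y y).card = q := h4.card_nb hy hc
    have h3 : nb G Y y = nb G W y :=
      Finset.eq_of_subset_of_card_le (nb_mono hYW y) (by rw [h2, hreg y (hYW hy)])
    by_contra hn'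
    have h5 : x0 ∈ nb G W y := mem_nb.2 ⟨hx0, hn'⟩
    rw [← h3] at h5
    exact hx0Y (mem_nb.1 h5).1
  set C := insert x0 T with hC
  have hCW : C ⊆ W := insert_subset hx0 (hTY.trans hYW)
  have hnb : nb G C x0 = nb G W x0 := by
    refine Finset.Subset.antisymm (nb_mono hCW x0) ?_
    intro y hy
    obtain ⟨hyW, hyn⟩ := mem_nb.1 hy
    refine mem_nb.2 ⟨?_, hyn⟩
    by_cases hyx : y = x0
    · rw [hyx]; exact mem_insert_self _ _
    · have hyY : y ∈ Y := mem_erase.2 ⟨hyx, hyW⟩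
      by_cases hc : c y = 0
      · exact mem_insert_of_mem (mem_filter.2 ⟨hyY, hc⟩)
      · exact absurd (h1 y hyY hc).symm hyn
  have hCc : C.card = q + 2 := by
    rw [hC, card_insert_of_notMem hx0T, hTc]
  have hSC : S G C = q ^ 2 + 2 * q := by
    have h2 := S_erase G (mem_insert_self x0 T)
    rw [erase_insert hx0T, ← hC, hnb, hreg x0 hx0, hS] at h2
    omega
  -- the pairs
  have hpairs : ∀ i : ℕ, ∃ a b : V, i ∈ Ico 1 n → (a ∈ Y ∧ c a = i) ∧ (b ∈ Y ∧ c b = i) ∧ a ≠ b := by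
    intro i
    by_cases hi : i ∈ Ico 1 n
    · rw [mem_Ico] at hi
      have h2 := h4.2.2.2 i hi.2
      rw [if_neg (by omega)] at h2
      have h3 : 1 < (Y.filter fun x => c x = i).card := by rw [h2]; omega
      obtain ⟨a, ha, b, hb, hab⟩ := one_lt_card.1 h3
      exact ⟨a, b, fun _ => ⟨mem_filter.1 ha, mem_filter.1 hb, hab⟩⟩
    · exact ⟨x0, x0, fun h => absurd h hi⟩
  choose a b hab using hpairs
  have hne0 : ∀ i ∈ Ico 1 n, i ≠ 0 := fun i hi => by
    have := (mem_Ico.1 hi).1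
    omega
  have hadjC : ∀ y ∈ Y, c y ≠ 0 → ∀ x ∈ C, G.Adj y x := by
    intro y hy hc x hx
    rcases mem_insert.1 hx with rfl | hx
    · exact h1 y hy hc
    · obtain ⟨hxY, hxc⟩ := mem_filter.1 hx
      exact h4.2.1 y hy x hxY (fun h => hc (h.trans hxc))
  have hfin := bad_of_pairs (G := G) (C := C) ⟨x0, mem_insert_self _ _⟩
    (by rw [hSC, hCc]; nlinarith) (Ico 1 n) a b W hCW
    (fun i hi => hYW (hab i hi).1.1) (fun i hi => hYW (hab i hi).2.1.1)
    (fun i hi => (hab i hi).2.2)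
    (fun i hi x hx => hadjC _ (hab i hi).1.1 (by rw [(hab i hi).1.2]; exact hne0 i hi) x hx)
    (fun i hi x hx => hadjC _ (hab i hi).2.1.1 (by rw [(hab i hi).2.1.2]; exact hne0 i hi) x hx)
    (fun i hi j hj hij => h4.2.1 _ (hab i hi).1.1 _ (hab j hj).1.1
      (by rw [(hab i hi).1.2, (hab j hj).1.2]; exact hij))
    (fun i hi j hj hij => h4.2.1 _ (hab i hi).1.1 _ (hab j hj).2.1.1
      (by rw [(hab i hi).1.2, (hab j hj).2.1.2]; exact hij))
    (fun i hi j hj hij => h4.2.1 _ (hab i hi).2.1.1 _ (hab j hj).2.1.1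
      (by rw [(hab i hi).2.1.2, (hab j hj).2.1.2]; exact hij))
  have hcard : (Ico 1 n).card + 1 = n := by rw [Nat.card_Ico]; omega
  rwa [hcard] at hfin

end Pool.Agent.W2helper82.AF
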